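import Pool.Agent.Helper78.JT.Goals2

/-!
# JT-DGJ: counting seeds by their digits
-/

namespace Pool.Agent.Helper27.JT

open Pool.Agent.Helper78.DT Pool.Agent.Helper78.JT
open scoped Classical

theorem dgj_mod (P u i j : ℕ) (h : j < u) : i % P ^ u / P ^ j % P = i / P ^ j % P := by
  have e : P ^ u = P ^ j * P ^ (u - j) := by
    rw [← pow_add]
    congr 1
    omega
  rw [e, Nat.mod_mul_right_div_self, Nat.mod_mod_of_dvd]
  exact dvd_pow_self P (by omega)

theorem filter_len (p : ℕ → Bool) (n : ℕ) :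
    (((List.range n).filter p).length : ℝ) =
      ∑ i ∈ Finset.range n, if p i = true then (1 : ℝ) else 0 := by
  induction n with
  | zero => simp
  | succ n ih =>
    rw [List.range_succ, List.filter_append, List.length_append, Finset.sum_range_succ, ← ih]
    push_cast
    congr 1
    by_cases h : p n = true
    · simp [h]
    · simp [h]

/-- The seeds as triples. -/
noncomputable def eqj (P Z Q u K : ℕ) : Fin (P ^ u * Z * Q ^ K) ≃
    (Fin u → Fin P) × Fin Z × (Fin K → Fin Q) :=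
  (finCongr (by ring : P ^ u * Z * Q ^ K = (Q ^ K * Z) * P ^ u)).trans
    (finProdFinEquiv.symm.trans ((Equiv.prodComm _ _).trans
      (Equiv.prodCongr finFunctionFinEquiv.symm
        (finProdFinEquiv.symm.trans ((Equiv.prodComm _ _).trans
          (Equiv.prodCongr (Equiv.refl _) finFunctionFinEquiv.symm))))))

theorem eqj1 (P Z Q u K : ℕ) (i : Fin (P ^ u * Z * Q ^ K)) (j : Fin u) :
    (((eqj P Z Q u K i).1 j : Fin P) : ℕ) = (i : ℕ) % P ^ u / P ^ (j : ℕ) % P := by
  simp [eqj, finFunctionFinEquiv_symm_apply_val]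

theorem eqj2 (P Z Q u K : ℕ) (i : Fin (P ^ u * Z * Q ^ K)) :
    (((eqj P Z Q u K i).2.1 : Fin Z) : ℕ) = (i : ℕ) / P ^ u % Z := by
  simp [eqj]

theorem eqj3 (P Z Q u K : ℕ) (i : Fin (P ^ u * Z * Q ^ K)) (j : Fin K) :
    (((eqj P Z Q u K i).2.2 j : Fin Q) : ℕ) =
      (i : ℕ) / P ^ u / Z / Q ^ (j : ℕ) % Q := by
  simp [eqj, finFunctionFinEquiv_symm_apply_val]

theorem dgj : DgjStmt := by
  intro P Z Q u K F hF hZ
  by_cases h0 : P ^ u * Z * Q ^ K = 0
  · rw [h0]
    simp
  have key : ∀ i : Fin (P ^ u * Z * Q ^ K),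
      F (dg P i) (i / P ^ u) (dg Q (i / P ^ u / Z)) =
      F (ext (eqj P Z Q u K i).1) (eqj P Z Q u K i).2.1
        (ext (eqj P Z Q u K i).2.2) := by
    intro i
    rw [eqj2, ← hZ]
    apply hF
    · intro j hj
      rw [ext, dif_pos hj, eqj1, dgj_mod P u _ _ hj, dg]
    · intro j hj
      rw [ext, dif_pos hj, eqj3, dg]
  have hcard : (Fintype.card ((Fin u → Fin P) × Fin Z × (Fin K → Fin Q)) : ℝ) =
      ((P ^ u * Z * Q ^ K : ℕ) : ℝ) := by
    rw [← Fintype.card_congr (eqj P Z Q u K), Fintype.card_fin]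
  have hne : ((P ^ u * Z * Q ^ K : ℕ) : ℝ) ≠ 0 := by
    exact_mod_cast h0
  rw [filter_len, pr, av, hcard, mul_div_cancel₀ _ hne,
    ← Equiv.sum_comp (eqj P Z Q u K), Finset.sum_range]
  apply Finset.sum_congr rfl
  intro i _
  rw [key i]
  congr

end Pool.Agent.Helper27.JT
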